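import Pool.Agent.Run7.h582.CF.Two3
import Pool.Agent.X22.CC2

/-!
# Short sums of the cubic residue symbols of `a + b ω` for ALL integers `a`, `b` near `lam₀ n * s + c₀ n` and
# `lam₁ n * t + c₁ n`, for almost every pair `(s, t)` with respect to all measures with polynomial Fourier decay

The question of the page asks for a power saving in short sums of cubic characters. Here the characters are the cubic residue symbols of the
Eisenstein integers `α = a + b ω`, where `a` and `b` run through ALL integers within the distance `y ^ B` of the real numbers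
`lam₀ n * s + c₀ n` and `lam₁ n * t + c₁ n`, `n = 1, 2, 3, …`: these are small boxes around points which may be very sparse, for
example around `(b ^ n s, b ^ n t)` (then `y` is a small power of the logarithm of the norm, and `y ^ B` can be a large power of the logarithm). The numbers `s`, `t` are random with respect to
ARBITRARY finite Borel measures `μ₀`, `μ₁` with bounded support and Fourier transforms `O (|ξ| ^ (-δ'))` for some `δ' > 0`: these
measures can be singular and can live on sets of arbitrarily small positive Hausdorff dimension (for example Salem sets, the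
well approximable numbers, images of Brownian motion). We prove square root cancellation in all sums of the length
`x` with `y ≤ x ≤ min (lam₀ n, lam₁ n) ^ κ₀`, with weights from sets of `x ^ A` functions, twists `m ^ (- i τ)`,
`|τ| ≤ x ^ A`, for almost every `s` and almost every `t`, for all large `n`, for all these `a` and `b` at the same time.

In the starting file `MetricSequences` the pairs are integer parts such as `(⌊s g(n)⌋, ⌊t g(n)⌋)` for almost all `s`, `t` with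
respect to Lebesgue measure, with exceptional indices `n`, and `x` is at most a power of the index. Here there are no exceptional
indices, all integers in the boxes are allowed, the measures are arbitrary, and `x` goes up to a power of `lam`: for
`lam₀ n = lam₁ n = 2 ^ n`, `c₀ n = c₁ n = 0` a power of the conductor instead of a power of its logarithm. In the other starting files the pairs run
through integer parts of generalised polynomials (`ThinSequences`), linear forms, or integers with few digits; in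
`ResidueVectors` they are residues modulo an integer.

Method: (a) a measure with polynomial Fourier decay is replaced by finite families of real numbers with the same exponential
sums; the integer parts of the members are uniformly distributed modulo all integers up to a power of `lam`
(`Pool.Agent.Run7.h582.FM`, `OD`); (b) fibred families: for every first coordinate an arbitrary family of second
coordinates is chosen, a violating one if there is one. The family of all the pairs is well distributed in the residue classes, so the high moments of sums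
of multiplicative families of local functions over such families (`Pool.Agent.N647.TS`, helper647) and cubic reciprocity (`Pool.Agent.X22.CC2`)
show that few first coordinates have a violating family of second coordinates (`Pool.Agent.Run7.h582.CF`, `two`);
(c) the lemma of Borel and Cantelli for both coordinates.
-/

set_option autoImplicit false

namespace Pool.Agent.Results.MP_081200_nt.FourierDecayCharacters

open Finset Filter MeasureTheory

/-- `μ` is a finite Borel measure with bounded support, and its Fourier transform decays polynomially. -/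
def FourierDecay (μ : Measure ℝ) : Prop :=
  IsFiniteMeasure μ ∧ (∃ R : ℝ, μ (Set.Icc (-R) R)ᶜ = 0) ∧ ∃ C δ : ℝ, 0 < δ ∧ ∀ ξ : ℝ, ξ ≠ 0 →
    ‖∫ t : ℝ, Complex.exp (((ξ * t : ℝ) : ℂ) * Complex.I) ∂μ‖ ≤ C * |ξ| ^ (-δ)

/-- The ring `ℤ[ω]` of the Eisenstein integers, `ω ^ 2 = - ω - 1`; `⟨u, v⟩` is `u + v ω`. -/
abbrev Eis : Type := QuadraticAlgebra ℤ (-1) (-1)

/-- The primitive cube root of unity `ω` in `ℤ[ω]`. -/
def om : Eis := ⟨0, 1⟩

/-- The norm of `u + v ω`, namely `u ^ 2 - u v + v ^ 2`. -/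
def nm (α : Eis) : ℤ := α.re ^ 2 - α.re * α.im + α.im ^ 2

/-- The complex cube root of unity `(- 1 + i √3) / 2`. -/
noncomputable def zeta : ℂ := ⟨-1 / 2, Real.sqrt 3 / 2⟩

open Classical in
/-- The cubic residue symbol of the rational integer `n` modulo the prime `π` of `ℤ[ω]` (of norm `p`): it is `0` if `π` divides `n`, and otherwise
it is `1`, `zeta` or `zeta ^ 2` according as `n ^ ((p - 1) / 3)` is congruent to `1`, to `ω` or to `ω ^ 2` modulo `π`. -/
noncomputable def residue (π : Eis) (n : ℕ) : ℂ :=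
  if π ∣ (n : Eis) then 0 else if π ∣ (n : Eis) ^ (((nm π).natAbs - 1) / 3) - 1 then 1
  else if π ∣ (n : Eis) ^ (((nm π).natAbs - 1) / 3) - om then zeta else zeta ^ 2

/-- The Dirichlet character `ψ` modulo the norm of `α` is the cubic residue symbol of `α`: for a decomposition of `α` into primes `π` (up to a unit), `ψ (n)` is the product of
the cubic residue symbols of `n` modulo these primes for all `n` coprime to the norm of `α`. -/
def IsSymbol (α : Eis) (ψ : DirichletCharacter ℂ (nm α).natAbs) : Prop :=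
  ∃ P : Multiset Eis, (∀ π ∈ P, Prime π) ∧ Associated P.prod α ∧
    ∀ n : ℕ, n.Coprime (nm α).natAbs → ψ (n : ZMod (nm α).natAbs) = (P.map (fun π => residue π n)).prod

/-- The sum `∑ w (n) ψ (n) n ^ (- i τ)` over the integers `n` with `M < n ≤ M'`. -/
noncomputable def shortSum {q : ℕ} (ψ : DirichletCharacter ℂ q) (w : ℕ → ℂ) (τ : ℝ) (M M' : ℕ) : ℂ :=
  ∑ n ∈ Ioc M M', w n * ψ (n : ZMod q) * Complex.exp (((-(τ * Real.log n) : ℝ) : ℂ) * Complex.I)

/-- The property of `α`: if its norm is not divisible by `3`, then for the Dirichlet character `ψ` modulo the norm of `α` which is the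
cubic residue symbol of `α`, all integers `x` with `y ≤ x ≤ X`, all functions `w i`, `i ∈ Λ x`, all real `τ` with `|τ| ≤ x ^ A` and all
`M < M' ≤ x` we have `|∑ w (n) ψ (n) n ^ (- i τ)| ≤ x ^ (1 / 2 + δ)`, where the sum runs over the integers `n` with `M < n ≤ M'`. -/
def ShortSums (δ : ℝ) (A : ℕ) {κ : Type} (w : κ → ℕ → ℂ) (Λ : ℕ → Finset κ) (y : ℕ) (X : ℝ) (α : Eis) : Prop :=
  ¬ (3 : ℤ) ∣ nm α → ∀ ψ : DirichletCharacter ℂ (nm α).natAbs, IsSymbol α ψ →
    ∀ x : ℕ, y ≤ x → (x : ℝ) ≤ X → ∀ i ∈ Λ x, ∀ τ : ℝ, |τ| ≤ (x : ℝ) ^ A → ∀ M M' : ℕ, M' ≤ x →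
      ‖shortSum ψ (w i) τ M M'‖ ≤ (x : ℝ) ^ (1 / 2 + δ)

open Pool.Agent.X22.CC Pool.Agent.X22.MT
open Pool.Agent.Y692.QS (Ei nr ep star_re epz wC)
open Pool.Agent.Y715.T.Rec (cs nn)
open Pool.Agent.Y715.T.RecG (cs_spec cs_uniq)

lemma residue_eq {π : Eis} (hπ : Prime π) (h3 : ¬ π ∣ 3) (n : ℕ) : residue π n = loc π (n : Ei) := by
  by_cases hd : π ∣ (n : Ei)
  · rw [loc_zero hd]
    unfold residue
    rw [if_pos hd]
  · rw [loc_ne hd]
    have h1 := cs_spec hπ h3 hd
    unfold residue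
    rw [if_neg hd]
    have e : ((nm π).natAbs - 1) / 3 = nn π := rfl
    rw [e]
    have key : ∀ c : ZMod 3, c = 0 ∨ c = 1 ∨ c = 2 := by decide
    have e0 : (Pool.Agent.Y692.QS.w : Ei) = om := rfl
    rcases key (cs π (n : Ei)) with h | h | h
    · rw [h] at h1 ⊢
      have h2 : π ∣ (n : Eis) ^ nn π - 1 := by
        have e1 : (Pool.Agent.Y692.QS.w : Ei) ^ (0 : ZMod 3).val = 1 := rfl
        rw [e1] at h1
        exact h1
      rw [if_pos h2]
      rfl
    · rw [h] at h1 ⊢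
      have e1 : (Pool.Agent.Y692.QS.w : Ei) ^ (1 : ZMod 3).val = om := by decide
      rw [e1] at h1
      have h2 : ¬ π ∣ (n : Eis) ^ nn π - 1 := by
        intro h2
        have h4 := cs_uniq hπ h3 (c := 0) (d := 1) (by
          have e2 : (Pool.Agent.Y692.QS.w : Ei) ^ (0 : ZMod 3).val = 1 := rfl
          rw [e2]
          exact h2) (by
          have e2 : (Pool.Agent.Y692.QS.w : Ei) ^ (1 : ZMod 3).val = om := by decide
          rw [e2]
          exact h1)
        exact absurd h4 (by decide)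
      rw [if_neg h2, if_pos h1]
      have e2 : (1 : ZMod 3).val = 1 := rfl
      rw [e2, pow_one]
      rfl
    · rw [h] at h1 ⊢
      have h2 : ¬ π ∣ (n : Eis) ^ nn π - 1 := by
        intro h2
        have h4 := cs_uniq hπ h3 (c := 0) (d := 2) (by
          have e2 : (Pool.Agent.Y692.QS.w : Ei) ^ (0 : ZMod 3).val = 1 := rfl
          rw [e2]
          exact h2) h1
        exact absurd h4 (by decide)
      have h2' : ¬ π ∣ (n : Eis) ^ nn π - om := by
        intro h2
        have h4 := cs_uniq hπ h3 (c := 1) (d := 2) (by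
          have e2 : (Pool.Agent.Y692.QS.w : Ei) ^ (1 : ZMod 3).val = om := by decide
          rw [e2]
          exact h2) h1
        exact absurd h4 (by decide)
      rw [if_neg h2, if_neg h2']
      have e2 : (2 : ZMod 3).val = 2 := rfl
      rw [e2]
      rfl

/-- the product of the symbols vanishes at the integers not coprime to the norm -/
lemma prod_zero (α : Ei) (P : Multiset Ei) (hP : ∀ π ∈ P, Prime π) (hPa : Associated P.prod α) (n : ℕ)
    (hn : ¬ n.Coprime (nr α).natAbs) : (P.map (fun π => loc π (n : Ei))).prod = 0 := by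
  obtain ⟨p, hp, hpn, hpα⟩ := Nat.Prime.not_coprime_iff_dvd.1 hn
  have hpZ : Prime (p : ℤ) := Nat.prime_iff_prime_int.1 hp
  have h1 : (p : ℤ) ∣ nr P.prod := by
    have h2 : nr P.prod = nr α := by
      obtain ⟨u, hu⟩ := hPa
      rw [← hu, Pool.Agent.Y692.QS.nr_mul, Pool.Agent.Y692.QS.isUnit_iff.1 u.isUnit, mul_one]
    rw [h2]
    exact (Int.natCast_dvd).2 hpα
  have h2 : ∀ s : Multiset Ei, (p : ℤ) ∣ nr s.prod → ∃ π ∈ s, (p : ℤ) ∣ nr π := by
    intro s
    induction s using Multiset.induction_on with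
    | empty =>
      intro h
      exfalso
      rw [Multiset.prod_zero, Pool.Agent.Y692.QS.nr_one] at h
      exact hpZ.not_isUnit (isUnit_of_dvd_one h)
    | cons a s ih =>
      intro h
      rw [Multiset.prod_cons, Pool.Agent.Y692.QS.nr_mul] at h
      rcases hpZ.dvd_or_dvd h with h | h
      · exact ⟨a, Multiset.mem_cons_self a s, h⟩
      · obtain ⟨π, hπ, h'⟩ := ih h
        exact ⟨π, Multiset.mem_cons_of_mem hπ, h'⟩
  obtain ⟨π, hπ, hpπ⟩ := h2 P h1
  obtain ⟨l, hl, hπl, hc⟩ := Pool.Agent.Y715.T.Rec.exists_p (hP π hπ)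
  have hpl : p = l := by
    have h3 : (p : ℤ) ∣ l := by
      rcases hc with h | h
      · rw [h] at hpπ
        exact hpπ
      · rw [h] at hpπ
        exact hpZ.dvd_of_dvd_pow hpπ
    exact (Nat.prime_dvd_prime_iff_eq hp hl).1 (by exact_mod_cast h3)
  have hπn : π ∣ (n : Ei) := by
    refine hπl.trans ?_
    rw [← hpl]
    exact_mod_cast (Nat.cast_dvd_cast hpn : ((p : ℕ) : Ei) ∣ (n : Ei))
  apply Multiset.prod_eq_zero
  rw [Multiset.mem_map]
  exact ⟨π, hπ, loc_zero hπn⟩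

/-- the good pairs of natural numbers give good pairs of integers -/
lemma lift (δ : ℝ) (A : ℕ) {κ : Type} (w : κ → ℕ → ℂ) (Λ : ℕ → Finset κ) (y M₀ H : ℕ) (X : ℝ)
    (hX : ∀ x : ℕ, (x : ℝ) ≤ X → x ^ M₀ ≤ 2 * H + 1) (hX' : ∀ x : ℕ, (x : ℝ) ≤ X → x ≤ 2 * H + 1) (a b : ℤ)
    (hm : ∀ x : ℕ, y ≤ x → x ^ M₀ ≤ 2 * H + 1 → ∀ l ∈ (Λ x) ×ˢ (univ : Finset (ZMod 3 × ZMod 3)), ∀ τ : ℝ, |τ| ≤ (x : ℝ) ^ A →
      ∀ χ : ℕ → ℂ, (∀ n, ‖χ n‖ ≤ 1) → (∀ n n' : ℕ, 1 ≤ n → 1 ≤ n' → χ (n * n') = χ n * χ n') →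
      (∀ n ∈ nn 3 x, χ n = FF n (star (epz l.2.1 l.2.2)) *
        FF n (toE ![Pool.Agent.Run7.h582.CF.gn H a, Pool.Agent.Run7.h582.CF.gn H b])) → ∀ M M' : ℕ, M' ≤ x →
      ‖∑ n ∈ Ioc M M', w l.1 n * χ n * Pool.Agent.X22.ND.hp τ n‖ ≤ (x : ℝ) ^ (1 / 2 + δ)) :
    ShortSums δ A w Λ y X ⟨a, b⟩ := by
  obtain ⟨α, hα⟩ : ∃ α : Ei, α = ⟨a, b⟩ := ⟨_, rfl⟩
  have hα' : (⟨a, b⟩ : Eis) = α := hα.symm
  rw [hα']
  intro h3 ψ hψ x hyx hxr i hi τ hτ M M' hM'
  have h3L : 3 ∣ 3 := dvd_rfl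
  obtain ⟨P, hP, hPa, hPψ⟩ := hψ
  have hP3 : ∀ π ∈ P, ¬ π ∣ 3 := by
    intro π hπ
    refine not_three (fun h => h3 (h.trans (nr_dvd ?_))) (hP π hπ)
    exact (Multiset.dvd_prod hπ).trans hPa.dvd
  obtain ⟨χ, hχ⟩ : ∃ χ : ℕ → ℂ, χ = fun (n : ℕ) => (P.map (fun π => loc π (n : Ei))).prod := ⟨_, rfl⟩
  have hχψ : ∀ n : ℕ, ψ (n : ZMod (nm α).natAbs) = χ n := by
    intro n
    rw [hχ]
    show ψ (n : ZMod (nm α).natAbs) = (P.map (fun π => loc π (n : Ei))).prod
    by_cases hn : n.Coprime (nm α).natAbs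
    · rw [hPψ n hn]
      congr 1
      apply Multiset.map_congr rfl
      intro π hπ
      exact residue_eq (hP π hπ) (hP3 π hπ) n
    · rw [prod_zero α P hP hPa n hn]
      apply MulChar.map_nonunit
      rw [ZMod.isUnit_iff_coprime]
      exact hn
  have h5 := hm x hyx (hX x hxr) (i, (α.re : ZMod 3), (α.im : ZMod 3)) (mem_product.2 ⟨hi, mem_univ _⟩) τ hτ χ ?_ ?_ ?_ M M' hM'
  · unfold shortSum
    have e1 : ∑ n ∈ Ioc M M', w i n * ψ (n : ZMod (nm α).natAbs) * Complex.exp (((-(τ * Real.log n) : ℝ) : ℂ) * Complex.I) =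
        ∑ n ∈ Ioc M M', w i n * χ n * Pool.Agent.X22.ND.hp τ n := by
      apply sum_congr rfl
      intro n _
      rw [hχψ n]
      rfl
    rw [e1]
    exact h5
  · intro n
    rw [← hχψ n]
    exact DirichletCharacter.norm_le_one ψ _
  · intro n n' _ _
    rw [← hχψ, ← hχψ, ← hχψ, Nat.cast_mul, map_mul]
  · intro n hn
    rw [mem_nn] at hn
    have hn3 : ¬ 3 ∣ n := fun h => Nat.not_coprime_of_dvd_of_dvd (by norm_num : 1 < 3) h h3L hn.2
    have hn0 : n ≠ 0 := by omega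
    have hnH : n ≤ 2 * H + 1 := hn.1.2.trans (hX' x hxr)
    have e2 : FF n (toE ![Pool.Agent.Run7.h582.CF.gn H a, Pool.Agent.Run7.h582.CF.gn H b]) = FF n α := by
      apply FF_congr hn0 hn3
      have h1 : (((n : ℤ) : Ei)) ∣ toE ![Pool.Agent.Run7.h582.CF.gn H a, Pool.Agent.Run7.h582.CF.gn H b] - α := by
        rw [Pool.Agent.Y692.QS.int_dvd, QuadraticAlgebra.re_sub, QuadraticAlgebra.im_sub, hα]
        exact ⟨Pool.Agent.Run7.h582.CF.gn_dvd H a n hn.1.1 hnH, Pool.Agent.Run7.h582.CF.gn_dvd H b n hn.1.1 hnH⟩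
      exact_mod_cast h1
    rw [hχ, e2]
    exact recip hn0 hn3 α h3 P hP hPa

/-- **Theorem.** Let `μ₀`, `μ₁` be measures with `FourierDecay`, `δ, ρ > 0`, `A` and `B` natural numbers. There is `κ₀ > 0` (it depends only on these)
with the following property. Let `lam₀ n, lam₁ n ≥ 1` and `c₀ n`, `c₁ n` be arbitrary real numbers, `y n` natural numbers with
`y n ≥ n ^ ρ` for all large `n`, and `Λ n x` sets of at most `x ^ A` functions `w` on the integers with `|w (m)| ≤ 1`. Then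
for `μ₀`-almost every `s`, for `μ₁`-almost every `t`, for all large `n` and ALL integers `a` and `b` with
`|a - (lam₀ n * s + c₀ n)| ≤ (y n) ^ B` and `|b - (lam₁ n * t + c₁ n)| ≤ (y n) ^ B`: if the norm of `α = a + b ω`
is not divisible by `3`, the Dirichlet character `ψ` modulo the norm which is the cubic residue symbol of `α`, all integers `x` with
`y n ≤ x ≤ min (lam₀ n, lam₁ n) ^ κ₀`, all `w` from `Λ n x`, all real `τ` with `|τ| ≤ x ^ A` and all `M < M' ≤ x` satisfy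
`|∑ w (m) ψ (m) m ^ (- i τ)| ≤ x ^ (1 / 2 + δ)`, where the sum runs over the integers `m` with `M < m ≤ M'`. -/
theorem result (μ₀ μ₁ : Measure ℝ) (h₀ : FourierDecay μ₀) (h₁ : FourierDecay μ₁) (δ ρ : ℝ) (hδ : 0 < δ) (hρ : 0 < ρ) (A B : ℕ) :
    ∃ κ₀ : ℝ, 0 < κ₀ ∧ ∀ (lam₀ c₀ lam₁ c₁ : ℕ → ℝ) (y : ℕ → ℕ), (∀ n, 1 ≤ lam₀ n) → (∀ n, 1 ≤ lam₁ n) →
      (∀ᶠ n : ℕ in atTop, (n : ℝ) ^ ρ ≤ y n) →
      ∀ (κ : ℕ → Type) (w : ∀ n, κ n → ℕ → ℂ) (Λ : ∀ n, ℕ → Finset (κ n)), (∀ n i m, ‖w n i m‖ ≤ 1) →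
      (∀ n x, (Λ n x).card ≤ x ^ A) →
      ∀ᵐ s ∂μ₀, ∀ᵐ t ∂μ₁, ∀ᶠ n : ℕ in atTop, ∀ a b : ℤ, |(a : ℝ) - (lam₀ n * s + c₀ n)| ≤ (y n : ℝ) ^ B →
        |(b : ℝ) - (lam₁ n * t + c₁ n)| ≤ (y n : ℝ) ^ B →
        ShortSums δ A (w n) (Λ n) (y n) (min (lam₀ n) (lam₁ n) ^ κ₀) ⟨a, b⟩ := by
  classical
  obtain ⟨σ, hσ, hae⟩ := Pool.Agent.Run7.h582.CF.ae_two μ₀ μ₁ h₀ h₁
  obtain ⟨K, hK⟩ : ∃ K : ℕ, 2 / ρ ≤ K := exists_nat_ge _
  have hK2 : 2 ≤ ρ * K := by
    rw [div_le_iff₀ hρ] at hK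
    linarith
  obtain ⟨M₀, y₀, heng⟩ := Pool.Agent.N647.TS.mt_law2W 2 3 (by norm_num) δ hδ (2 * (2 * B + K)) (A + 4) A
  have h2BK : (0 : ℝ) < ((2 * B + K : ℕ) : ℝ) + 1 := by positivity
  obtain ⟨κ₀, hκ₀⟩ : ∃ κ₀ : ℝ, κ₀ = min (σ / (M₀ + 1)) (1 / (((2 * B + K : ℕ) : ℝ) + 1)) := ⟨_, rfl⟩
  have hκp : 0 < κ₀ := by
    rw [hκ₀]
    exact lt_min (by positivity) (by positivity)
  have hκ1 : κ₀ * ((2 * B + K : ℕ) : ℝ) ≤ 1 := by
    have h1 : κ₀ ≤ 1 / (((2 * B + K : ℕ) : ℝ) + 1) := by rw [hκ₀]; exact min_le_right _ _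
    rw [le_div_iff₀ h2BK] at h1
    nlinarith
  have hκ2 : κ₀ * (M₀ + 1) ≤ σ := by
    have h1 : κ₀ ≤ σ / (M₀ + 1) := by rw [hκ₀]; exact min_le_left _ _
    rwa [le_div_iff₀ (by positivity)] at h1
  refine ⟨κ₀, hκp, fun lam₀ c₀ lam₁ c₁ y hl₀ hl₁ hy κ w Λ hw hΛ => ?_⟩
  refine hae ρ hρ B K hK2 κ₀ hκ1 lam₀ c₀ lam₁ c₁ y hy hl₀ hl₁
    (fun n a b => ShortSums δ A (w n) (Λ n) (y n) (min (lam₀ n) (lam₁ n) ^ κ₀) ⟨a, b⟩) ?_
  filter_upwards [hy, ((tendsto_rpow_atTop hρ).comp tendsto_natCast_atTop_atTop).eventually_ge_atTop ((y₀ + 3 : ℕ) : ℝ)]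
    with n h1 h2
  rw [Function.comp_apply] at h2
  have hyn : y₀ + 3 ≤ y n := by exact_mod_cast h2.trans h1
  obtain ⟨lam, hlam⟩ : ∃ lam, lam = min (lam₀ n) (lam₁ n) := ⟨_, rfl⟩
  rw [← hlam]
  have hlam1 : 1 ≤ lam := by rw [hlam]; exact le_min (hl₀ n) (hl₁ n)
  have hlamp : 0 < lam := by linarith
  by_cases hv : (y n : ℝ) ≤ lam ^ κ₀
  · right
    refine ⟨hv, fun H hH => ?_⟩
    have hX : ∀ x : ℕ, (x : ℝ) ≤ lam ^ κ₀ → (x : ℝ) ^ (M₀ + 1) ≤ 2 * H + 1 := by
      intro x hx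
      refine le_trans ?_ hH
      calc (x : ℝ) ^ (M₀ + 1) ≤ (lam ^ κ₀) ^ (M₀ + 1) := pow_le_pow_left₀ (Nat.cast_nonneg _) hx _
        _ = lam ^ (κ₀ * (M₀ + 1)) := by
          rw [← Real.rpow_natCast, ← Real.rpow_mul hlamp.le]
          congr 1
          push_cast
          ring
        _ ≤ lam ^ σ := Real.rpow_le_rpow_of_exponent_le hlam1 hκ2
    have hXn : ∀ x : ℕ, (x : ℝ) ≤ lam ^ κ₀ → x ^ (M₀ + 1) ≤ 2 * H + 1 := by
      intro x hx
      exact_mod_cast hX x hx
    refine ⟨fun m₀ m₁ => ∀ x : ℕ, y n ≤ x → x ^ M₀ ≤ 2 * H + 1 → ∀ l ∈ (Λ n x) ×ˢ (univ : Finset (ZMod 3 × ZMod 3)),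
      ∀ τ : ℝ, |τ| ≤ (x : ℝ) ^ A → ∀ χ : ℕ → ℂ, (∀ n, ‖χ n‖ ≤ 1) →
      (∀ n n' : ℕ, 1 ≤ n → 1 ≤ n' → χ (n * n') = χ n * χ n') →
      (∀ n ∈ nn 3 x, χ n = FF n (star (epz l.2.1 l.2.2)) * FF n (toE ![m₀, m₁])) → ∀ M M' : ℕ, M' ≤ x →
      ‖∑ m ∈ Ioc M M', w n l.1 m * χ m * Pool.Agent.X22.ND.hp τ m‖ ≤ (x : ℝ) ^ (1 / 2 + δ), ?_, ?_⟩
    · intro S u hW
      have h3L : 3 ∣ 3 := dvd_rfl
      have h4 := heng S u H (y n) hW (by omega) (κ n × (ZMod 3 × ZMod 3)) (fun x => (Λ n x) ×ˢ univ) (by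
          intro x hx
          rw [card_product]
          have e1 : (univ : Finset (ZMod 3 × ZMod 3)).card = 9 := by decide
          rw [e1, pow_add]
          apply Nat.mul_le_mul (hΛ n x)
          calc 9 ≤ 3 ^ 4 := by norm_num
            _ ≤ x ^ 4 := Nat.pow_le_pow_left (by omega) 4)
        (fun x q n m => FF n (toE m)) (by
          intro x hx _ _
          apply (fam _ x h3L).mono
          exact Real.one_le_rpow (by exact_mod_cast (by omega : 1 ≤ x)) (by positivity))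
        (fun x q m => w n q.1 m) (fun x q n => FF n (star (epz q.2.1 q.2.2))) (fun x q m => hw n q.1 m)
        (fun x q n => FF_norm _ _)
        (fun m => ∀ x : ℕ, y n ≤ x → x ^ M₀ ≤ 2 * H + 1 → ∀ l ∈ (Λ n x) ×ˢ (univ : Finset (ZMod 3 × ZMod 3)),
          ∀ τ : ℝ, |τ| ≤ (x : ℝ) ^ A → ∀ χ : ℕ → ℂ, (∀ n, ‖χ n‖ ≤ 1) →
          (∀ n n' : ℕ, 1 ≤ n → 1 ≤ n' → χ (n * n') = χ n * χ n') →
          (∀ n ∈ nn 3 x, χ n = FF n (star (epz l.2.1 l.2.2)) * FF n (toE ![m 0, m 1])) → ∀ M M' : ℕ, M' ≤ x →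
          ‖∑ k ∈ Ioc M M', w n l.1 k * χ k * Pool.Agent.X22.ND.hp τ k‖ ≤ (x : ℝ) ^ (1 / 2 + δ)) (by
          intro m hm
          have em : (![m 0, m 1] : Fin 2 → ℕ) = m := by
            funext i
            fin_cases i <;> rfl
          rw [em]
          exact hm)
      have e3 : (1 / (y n : ℝ) ^ (2 * B + K)) ^ 2 = 1 / (y n : ℝ) ^ (2 * (2 * B + K)) := by
        rw [div_pow, one_pow, ← pow_mul, mul_comm (2 * B + K) 2]
      rw [e3]
      convert h4 using 3
    · intro a b hm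
      refine lift δ A (w n) (Λ n) (y n) M₀ H (lam ^ κ₀) ?_ ?_ a b hm
      · intro x hx
        rcases Nat.eq_zero_or_pos x with h | h
        · subst h
          rcases Nat.eq_zero_or_pos M₀ with h' | h'
          · subst h'
            omega
          · rw [Nat.zero_pow h']
            omega
        · exact (Nat.pow_le_pow_right h (by omega)).trans (hXn x hx)
      · intro x hx
        exact (Nat.le_self_pow (by omega) x).trans (hXn x hx)
  · left
    intro a b h3 ψ hψ x hyx hxr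
    exfalso
    apply hv
    have : (y n : ℝ) ≤ x := by exact_mod_cast hyx
    linarith

end Pool.Agent.Results.MP_081200_nt.FourierDecayCharacters
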