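import Pool.Agent.Run7.h823.WF.MT
import Pool.Agent.X22.CC2
import Pool.Agent.Run7.h566.FQ.Flat

/-!
# Short sums of the cubic characters whose conductors run through multilinear families of pairs of residues

The cubic character is the cubic residue symbol of the Eisenstein integer `α = v_0 + v_1 ω`, where the pair `v = c₀ + z` runs
through the values modulo a prime `q` of a product of the coordinates of a tuple, plus arbitrary functions each of which does
not depend on one of the coordinates; the tuples run through an intersection of cylinder sets (membership in each of which does not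
depend on one coordinate). Repeated applications of the Cauchy-Schwarz inequality show that the Fourier coefficients are small,
and the criterion of helper823 (high moments, cubic reciprocity) applies.
-/

set_option autoImplicit false

namespace Pool.Agent.Results.MP_081200_nt.MultilinearConductors

open Finset

/-- The Fourier coefficients of the vectors of residues `y i`, `i ∈ s`, modulo `q` at the nonzero frequencies are at most
`η` times the number of the vectors: `|∑ i ∈ s, e(h·y_i / q)| ≤ η |s|` for all vectors `h ≠ 0` modulo `q`. -/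
def Flat {τ ι : Type} [Fintype ι] (q : ℕ) [NeZero q] (η : ℝ) (s : Finset τ) (y : τ → ι → ZMod q) : Prop :=
  ∀ h : ι → ZMod q, h ≠ 0 → ‖∑ i ∈ s, (ZMod.stdAddChar (∑ j, h j * y i j) : ℂ)‖ ≤ η * s.card

/-- The ring `ℤ[ω]` of the Eisenstein integers, `ω ^ 2 = - ω - 1`; `⟨u, v⟩` is `u + v ω`. -/
abbrev Eis : Type := QuadraticAlgebra ℤ (-1) (-1)

/-- The primitive cube root of unity `ω` in `ℤ[ω]`. -/
def om : Eis := ⟨0, 1⟩

/-- The norm of `u + v ω`, namely `u ^ 2 - u v + v ^ 2`. -/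
def nm (α : Eis) : ℤ := α.re ^ 2 - α.re * α.im + α.im ^ 2

/-- The complex cube root of unity `(- 1 + i √3) / 2`. -/
noncomputable def zeta : ℂ := ⟨-1 / 2, Real.sqrt 3 / 2⟩

open Classical in
/-- The cubic residue symbol of the rational integer `n` modulo the prime `π` of `ℤ[ω]` (of norm `p`): it is `0` if `π` divides `n`, and otherwise
it is `1`, `zeta` or `zeta ^ 2` according as `n ^ ((p - 1) / 3)` is congruent to `1`, to `ω` or to `ω ^ 2` modulo `π`. -/
noncomputable def residue (π : Eis) (n : ℕ) : ℂ :=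
  if π ∣ (n : Eis) then 0 else if π ∣ (n : Eis) ^ (((nm π).natAbs - 1) / 3) - 1 then 1
  else if π ∣ (n : Eis) ^ (((nm π).natAbs - 1) / 3) - om then zeta else zeta ^ 2

/-- The Dirichlet character `ψ` modulo the norm of `α` is the cubic residue symbol of `α`: for a decomposition of `α` into primes `π` (up to a unit), `ψ (n)` is the product of
the cubic residue symbols of `n` modulo these primes for all `n` coprime to the norm of `α`. -/
def IsSymbol (α : Eis) (ψ : DirichletCharacter ℂ (nm α).natAbs) : Prop :=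
  ∃ P : Multiset Eis, (∀ π ∈ P, Prime π) ∧ Associated P.prod α ∧
    ∀ n : ℕ, n.Coprime (nm α).natAbs → ψ (n : ZMod (nm α).natAbs) = (P.map (fun π => residue π n)).prod

/-- The sum `∑ w (n) ψ (n) n ^ (- i τ)` over the integers `n` with `M < n ≤ M'`. -/
noncomputable def shortSum {q : ℕ} (ψ : DirichletCharacter ℂ q) (w : ℕ → ℂ) (τ : ℝ) (M M' : ℕ) : ℂ :=
  ∑ n ∈ Ioc M M', w n * ψ (n : ZMod q) * Complex.exp (((-(τ * Real.log n) : ℝ) : ℂ) * Complex.I)

/-- The Eisenstein integer `(c₀ 0 + z_0) + (c₀ 1 + z_1) ω`, where `0 ≤ z_0, z_1 < q` are the least residues of the pair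
number `i`. -/
def alpha {τ : Type} {q : ℕ} (z : τ → Fin 2 → ZMod q) (c₀ : Fin 2 → ℕ) (i : τ) : Eis :=
  ⟨((c₀ 0 + (z i 0).val : ℕ) : ℤ), ((c₀ 1 + (z i 1).val : ℕ) : ℤ)⟩

/-- The property of `α`: if its norm is not divisible by `3`, then for the Dirichlet character `ψ` modulo the norm of `α` which is the
cubic residue symbol of `α`, all integers `x` with `y ≤ x ≤ X`, all functions `w i`, `i ∈ Λ x`, all real `τ` with `|τ| ≤ x ^ A` and all
`M < M' ≤ x` we have `|∑ w (n) ψ (n) n ^ (- i τ)| ≤ x ^ (1 / 2 + δ)`, where the sum runs over the integers `n` with `M < n ≤ M'`. -/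
def ShortSums (δ : ℝ) (A : ℕ) {κ : Type} (w : κ → ℕ → ℂ) (Λ : ℕ → Finset κ) (y : ℕ) (X : ℝ) (α : Eis) : Prop :=
  ¬ (3 : ℤ) ∣ nm α → ∀ ψ : DirichletCharacter ℂ (nm α).natAbs, IsSymbol α ψ →
    ∀ x : ℕ, y ≤ x → (x : ℝ) ≤ X → ∀ i ∈ Λ x, ∀ τ : ℝ, |τ| ≤ (x : ℝ) ^ A → ∀ M M' : ℕ, M' ≤ x →
      ‖shortSum ψ (w i) τ M M'‖ ≤ (x : ℝ) ^ (1 / 2 + δ)

open Pool.Agent.X22.CC Pool.Agent.X22.MT
open Pool.Agent.Y692.QS (Ei nr ep star_re epz wC)
open Pool.Agent.Y715.T.Rec (cs nn)
open Pool.Agent.Y715.T.RecG (cs_spec cs_uniq)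

lemma residue_eq {π : Eis} (hπ : Prime π) (h3 : ¬ π ∣ 3) (n : ℕ) : residue π n = loc π (n : Ei) := by
  by_cases hd : π ∣ (n : Ei)
  · rw [loc_zero hd]
    unfold residue
    rw [if_pos hd]
  · rw [loc_ne hd]
    have h1 := cs_spec hπ h3 hd
    unfold residue
    rw [if_neg hd]
    have e : ((nm π).natAbs - 1) / 3 = nn π := rfl
    rw [e]
    have key : ∀ c : ZMod 3, c = 0 ∨ c = 1 ∨ c = 2 := by decide
    have e0 : (Pool.Agent.Y692.QS.w : Ei) = om := rfl
    rcases key (cs π (n : Ei)) with h | h | h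
    · rw [h] at h1 ⊢
      have h2 : π ∣ (n : Eis) ^ nn π - 1 := by
        have e1 : (Pool.Agent.Y692.QS.w : Ei) ^ (0 : ZMod 3).val = 1 := rfl
        rw [e1] at h1
        exact h1
      rw [if_pos h2]
      rfl
    · rw [h] at h1 ⊢
      have e1 : (Pool.Agent.Y692.QS.w : Ei) ^ (1 : ZMod 3).val = om := by decide
      rw [e1] at h1
      have h2 : ¬ π ∣ (n : Eis) ^ nn π - 1 := by
        intro h2
        have h4 := cs_uniq hπ h3 (c := 0) (d := 1) (by
          have e2 : (Pool.Agent.Y692.QS.w : Ei) ^ (0 : ZMod 3).val = 1 := rfl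
          rw [e2]
          exact h2) (by
          have e2 : (Pool.Agent.Y692.QS.w : Ei) ^ (1 : ZMod 3).val = om := by decide
          rw [e2]
          exact h1)
        exact absurd h4 (by decide)
      rw [if_neg h2, if_pos h1]
      have e2 : (1 : ZMod 3).val = 1 := rfl
      rw [e2, pow_one]
      rfl
    · rw [h] at h1 ⊢
      have h2 : ¬ π ∣ (n : Eis) ^ nn π - 1 := by
        intro h2
        have h4 := cs_uniq hπ h3 (c := 0) (d := 2) (by
          have e2 : (Pool.Agent.Y692.QS.w : Ei) ^ (0 : ZMod 3).val = 1 := rfl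
          rw [e2]
          exact h2) h1
        exact absurd h4 (by decide)
      have h2' : ¬ π ∣ (n : Eis) ^ nn π - om := by
        intro h2
        have h4 := cs_uniq hπ h3 (c := 1) (d := 2) (by
          have e2 : (Pool.Agent.Y692.QS.w : Ei) ^ (1 : ZMod 3).val = om := by decide
          rw [e2]
          exact h2) h1
        exact absurd h4 (by decide)
      rw [if_neg h2, if_neg h2']
      have e2 : (2 : ZMod 3).val = 2 := rfl
      rw [e2]
      rfl

/-- the product of the symbols vanishes at the integers not coprime to the norm -/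
lemma prod_zero (α : Ei) (P : Multiset Ei) (hP : ∀ π ∈ P, Prime π) (hPa : Associated P.prod α) (n : ℕ)
    (hn : ¬ n.Coprime (nr α).natAbs) : (P.map (fun π => loc π (n : Ei))).prod = 0 := by
  obtain ⟨p, hp, hpn, hpα⟩ := Nat.Prime.not_coprime_iff_dvd.1 hn
  have hpZ : Prime (p : ℤ) := Nat.prime_iff_prime_int.1 hp
  have h1 : (p : ℤ) ∣ nr P.prod := by
    have h2 : nr P.prod = nr α := by
      obtain ⟨u, hu⟩ := hPa
      rw [← hu, Pool.Agent.Y692.QS.nr_mul, Pool.Agent.Y692.QS.isUnit_iff.1 u.isUnit, mul_one]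
    rw [h2]
    exact (Int.natCast_dvd).2 hpα
  have h2 : ∀ s : Multiset Ei, (p : ℤ) ∣ nr s.prod → ∃ π ∈ s, (p : ℤ) ∣ nr π := by
    intro s
    induction s using Multiset.induction_on with
    | empty =>
      intro h
      exfalso
      rw [Multiset.prod_zero, Pool.Agent.Y692.QS.nr_one] at h
      exact hpZ.not_isUnit (isUnit_of_dvd_one h)
    | cons a s ih =>
      intro h
      rw [Multiset.prod_cons, Pool.Agent.Y692.QS.nr_mul] at h
      rcases hpZ.dvd_or_dvd h with h | h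
      · exact ⟨a, Multiset.mem_cons_self a s, h⟩
      · obtain ⟨π, hπ, h'⟩ := ih h
        exact ⟨π, Multiset.mem_cons_of_mem hπ, h'⟩
  obtain ⟨π, hπ, hpπ⟩ := h2 P h1
  obtain ⟨l, hl, hπl, hc⟩ := Pool.Agent.Y715.T.Rec.exists_p (hP π hπ)
  have hpl : p = l := by
    have h3 : (p : ℤ) ∣ l := by
      rcases hc with h | h
      · rw [h] at hpπ
        exact hpπ
      · rw [h] at hpπ
        exact hpZ.dvd_of_dvd_pow hpπ
    exact (Nat.prime_dvd_prime_iff_eq hp hl).1 (by exact_mod_cast h3)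
  have hπn : π ∣ (n : Ei) := by
    refine hπl.trans ?_
    rw [← hpl]
    exact_mod_cast (Nat.cast_dvd_cast hpn : ((p : ℕ) : Ei) ∣ (n : Ei))
  apply Multiset.prod_eq_zero
  rw [Multiset.mem_map]
  exact ⟨π, hπ, loc_zero hπn⟩

/-- The criterion (part (1) of `ResidueVectors` of helper823, whose proof is copied): families of pairs of residues with
small Fourier coefficients. -/
theorem criterion : ∀ (β δ : ℝ) (A : ℕ), 0 < β → 0 < δ → ∃ κ₀ : ℝ, 0 < κ₀ ∧ ∃ y₀ : ℕ, ∀ y : ℕ, y₀ ≤ y → ∀ (q : ℕ) [NeZero q]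
      (τ : Type) (s : Finset τ) (z : τ → Fin 2 → ZMod q), Flat q ((q : ℝ) ^ (-β)) s z → ∀ c₀ : Fin 2 → ℕ,
      ∀ (κ : Type) (w : κ → ℕ → ℂ) (Λ : ℕ → Finset κ), (∀ i n, ‖w i n‖ ≤ 1) → (∀ x, (Λ x).card ≤ x ^ A) →
      ({i : τ | i ∈ s ∧ ¬ ShortSums δ A w Λ y ((q : ℝ) ^ κ₀) (alpha z c₀ i)}.ncard : ℝ) ≤ 1 / (y : ℝ) ^ A * s.card := by
  intro β δ A hβ hδ
  classical
  have h3L : 3 ∣ 3 := dvd_rfl
  obtain ⟨κ₀, hκ₀, y₀, h⟩ := Pool.Agent.Run7.h823.WF.MT.mt_res 2 hβ 3 (by norm_num) δ hδ A (A + 4) A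
  refine ⟨κ₀, hκ₀, y₀ + 3, fun y hy q _ τ' s z hf c₀ κ w Λ hw hΛ => ?_⟩
  refine h y (by omega) τ' q s z c₀ hf (κ × (ZMod 3 × ZMod 3)) (fun x => (Λ x) ×ˢ univ) ?_
    (fun x q' n m => FF n (toE m)) ?_ (fun x q' n => w q'.1 n) (fun x q' n => FF n (star (epz q'.2.1 q'.2.2))) (fun x q' n => hw q'.1 n) (fun x q' n => FF_norm _ _)
    (fun m => ShortSums δ A w Λ y ((q : ℝ) ^ κ₀) (toE m)) ?_
  · intro x hx
    rw [card_product]
    have e1 : (univ : Finset (ZMod 3 × ZMod 3)).card = 9 := by decide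
    rw [e1, pow_add]
    apply Nat.mul_le_mul (hΛ x)
    calc 9 ≤ 3 ^ 4 := by norm_num
      _ ≤ x ^ 4 := Nat.pow_le_pow_left (by omega) 4
  · intro x hx _ _
    apply (fam _ x h3L).mono
    exact Real.one_le_rpow (by exact_mod_cast (by omega : 1 ≤ x)) (by positivity)
  · intro m hm h3 ψ hψ x hyx hxr i hi τ hτ M M' hM'
    obtain ⟨P, hP, hPa, hPψ⟩ := hψ
    have hP3 : ∀ π ∈ P, ¬ π ∣ 3 := by
      intro π hπ
      refine not_three (fun h => h3 (h.trans (nr_dvd ?_))) (hP π hπ)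
      exact (Multiset.dvd_prod hπ).trans hPa.dvd
    obtain ⟨χ, hχ⟩ : ∃ χ : ℕ → ℂ, χ = fun (n : ℕ) => (P.map (fun π => loc π (n : Ei))).prod := ⟨_, rfl⟩
    have hχψ : ∀ n : ℕ, ψ (n : ZMod (nm (toE m)).natAbs) = χ n := by
      intro n
      rw [hχ]
      show ψ (n : ZMod (nm (toE m)).natAbs) = (P.map (fun π => loc π (n : Ei))).prod
      by_cases hn : n.Coprime (nm (toE m)).natAbs
      · rw [hPψ n hn]
        congr 1
        apply Multiset.map_congr rfl
        intro π hπ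
        exact residue_eq (hP π hπ) (hP3 π hπ) n
      · rw [prod_zero (toE m) P hP hPa n hn]
        apply MulChar.map_nonunit
        rw [ZMod.isUnit_iff_coprime]
        exact hn
    have h5 := hm x hyx hxr (i, ((toE m).re : ZMod 3), ((toE m).im : ZMod 3)) (mem_product.2 ⟨hi, mem_univ _⟩) τ hτ χ ?_ ?_ ?_ M M' hM'
    · unfold shortSum
      have e1 : ∑ n ∈ Ioc M M', w i n * ψ (n : ZMod (nm (toE m)).natAbs) * Complex.exp (((-(τ * Real.log n) : ℝ) : ℂ) * Complex.I) =
          ∑ n ∈ Ioc M M', w i n * χ n * Pool.Agent.X22.ND.hp τ n := by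
        apply sum_congr rfl
        intro n _
        rw [hχψ n]
        rfl
      rw [e1]
      exact h5
    · intro n
      rw [← hχψ n]
      exact DirichletCharacter.norm_le_one ψ _
    · intro n n' _ _
      rw [← hχψ, ← hχψ, ← hχψ, Nat.cast_mul, map_mul]
    · intro n hn
      rw [mem_nn] at hn
      have hn3 : ¬ 3 ∣ n := fun h => Nat.not_coprime_of_dvd_of_dvd (by norm_num : 1 < 3) h h3L hn.2
      rw [hχ]
      exact recip (by omega) hn3 (toE m) h3 P hP hPa

/-- The function `F` of tuples of pairs of residues modulo `q` does not depend on the coordinate (pair) number `j`. -/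
def Free {q n : ℕ} {X : Type} (j : Fin n) (F : (Fin n → Fin 2 → ZMod q) → X) : Prop :=
  ∀ a a' : Fin n → Fin 2 → ZMod q, (∀ i, i ≠ j → a i = a' i) → F a = F a'

/-- The pair of residues with the coordinates `∏ i, a_(i,l) + ∑ j, x_j(a)_l`, `l = 0, 1`. -/
def pairs {q n : ℕ} (x : Fin (n + 1) → (Fin (n + 1) → Fin 2 → ZMod q) → (Fin 2 → ZMod q))
    (a : Fin (n + 1) → Fin 2 → ZMod q) (l : Fin 2) : ZMod q :=
  ∏ i, a i l + ∑ j, x j a l

/-- **Cubic characters in multilinear families of conductors.** Let `n ≥ 0`, `A ≥ 0` and `δ > 0`. There are `κ₀ > 0` and `y₀`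
such that for all `y ≥ y₀`, all primes `q ≥ n ^ 2`, ALL functions `x_0, …, x_n` from the tuples `a = (a_0, …, a_n)` of pairs of
residues modulo `q` to the pairs of residues such that `x_j` does not depend on `a_j`, all sets `S` of tuples which are the
intersection of sets `E_0, …, E_n` such that membership in `E_j` does not depend on `a_j`, with
`|S| ≥ q ^ (-1 / 2 ^ (n + 2)) q ^ (2 (n + 1))`, all pairs `c₀` of natural numbers, and all sets `Λ x` of at most `x ^ A` functions `w`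
on the integers with `|w| ≤ 1` the following holds for all but at most `|S| / y ^ A` of the tuples `a` in `S`: the Eisenstein integer
`α = (c₀ 0 + z_0) + (c₀ 1 + z_1) ω`, where `z_l` is the least residue of `a_(0,l) ⋯ a_(n,l) + x_0(a)_l + ⋯ + x_n(a)_l`, has the
property `ShortSums`: if its norm is not divisible by `3`, then for the Dirichlet character `ψ` modulo the norm of `α` which is the
cubic residue symbol of `α`, all integers `x` with `y ≤ x ≤ q ^ κ₀`, all `w` from `Λ x`, all real `τ` with `|τ| ≤ x ^ A` and all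
`M < M' ≤ x` we have `|∑ w (m) ψ (m) m ^ (- i τ)| ≤ x ^ (1 / 2 + δ)`, where the sum runs over the integers `m` with `M < m ≤ M'`. -/
theorem result : ∀ (n A : ℕ) (δ : ℝ), 0 < δ → ∃ κ₀ : ℝ, 0 < κ₀ ∧ ∃ y₀ : ℕ, ∀ y : ℕ, y₀ ≤ y →
    ∀ (q : ℕ) [Fact q.Prime], n ^ 2 ≤ q →
    ∀ (x : Fin (n + 1) → (Fin (n + 1) → Fin 2 → ZMod q) → (Fin 2 → ZMod q))
      (E : Fin (n + 1) → (Fin (n + 1) → Fin 2 → ZMod q) → Prop), (∀ j, Free j (x j)) → (∀ j, Free j (E j)) →
    ∀ S : Finset (Fin (n + 1) → Fin 2 → ZMod q), (∀ a, a ∈ S ↔ ∀ j, E j a) →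
    (q : ℝ) ^ (-(1 / (4 * 2 ^ n)) : ℝ) * (q : ℝ) ^ (2 * (n + 1)) ≤ S.card → ∀ c₀ : Fin 2 → ℕ,
    ∀ (κ : Type) (w : κ → ℕ → ℂ) (Λ : ℕ → Finset κ), (∀ i m, ‖w i m‖ ≤ 1) → (∀ x, (Λ x).card ≤ x ^ A) →
    ({a : Fin (n + 1) → Fin 2 → ZMod q |
      a ∈ S ∧ ¬ ShortSums δ A w Λ y ((q : ℝ) ^ κ₀) (alpha (pairs x) c₀ a)}.ncard : ℝ) ≤
      1 / (y : ℝ) ^ A * S.card := by
  intro n A δ hδ
  obtain ⟨κ₀, hκ₀, y₀, h⟩ := criterion (1 / (4 * 2 ^ n)) δ A (by positivity) hδ
  refine ⟨κ₀, hκ₀, y₀, fun y hy q _ hnq x E hx hE S hS hcard c₀ κ w Λ hw hΛ => ?_⟩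
  classical
  refine h y hy q (Fin (n + 1) → Fin 2 → ZMod q) S (pairs x) ?_ c₀ κ w Λ hw hΛ
  have hSe : S = (univ : Finset (Fin (n + 1) → Fin 2 → ZMod q)).filter fun a => ∀ j, E j a := by
    ext a
    rw [hS, mem_filter]
    exact ⟨fun h => ⟨mem_univ _, h⟩, fun h => h.2⟩
  intro g hg
  rw [hSe] at hcard ⊢
  convert Pool.Agent.Run7.h566.FQ.flat n hnq x hx E hE (by convert hcard) g hg using 3
  rfl

end Pool.Agent.Results.MP_081200_nt.MultilinearConductors
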