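import Pool.Agent.Run7.h823.WF.MT
import Pool.Agent.Run7.h823.WF.Ex
import Pool.Agent.X22.CC2

/-!
# Short sums of the cubic characters whose conductors run through sparse families of pairs of residues: the first `m ^ ε`
# terms of linear recurrences modulo `m`

The cubic character is the cubic residue symbol of the Eisenstein integer `α = v_0 + v_1 ω`, where the pair
`v = c₀ + y_i` (`c₀` fixed natural numbers) runs through an arbitrary family `y_i`, `i ∈ s`, of pairs of residues modulo an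
integer `q` (represented by the least residues) whose Fourier coefficients at the nonzero frequencies are at most
`q ^ (-β)` times their number. We prove square root cancellation in the sums of length `x` with `y ≤ x ≤ q ^ κ₀`, with
arbitrary weights from a small set of functions, for all but `|s| / y ^ A` members of the family.

The family can be very sparse: examples (of vectors with `r` coordinates) are

* the values `(u_1(n), …, u_r(n))`, `n < N`, of `r` linear recurrences modulo a prime `m` with linearly independent vectors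
  of coefficients, as soon as `N ≥ m ^ ε` and the roots and their quotients have orders `≥ m ^ ε`;
* the vectors `(x_1 b_1 ^ n, …, x_r b_r ^ n)`, `n < N`, `N ≥ m ^ ε`, for fixed different integers `b_j ≥ 2` and
  all `x_j ≠ 0`, modulo all but `C X ^ ε` of the primes `m ≤ X`.

In these examples only `m ^ ε` of the `m ^ r` vectors of the box occur.

From Mathlib: `ZMod.stdAddChar`: the additive character `j ↦ exp (2 π i j / q)` of the integers modulo `q`; `ZMod.val`: the
least residue.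

For instance the cubic characters of the conductors `(2 ^ n mod m) + (3 ^ n mod m) ω`, `n < m ^ ε`, modulo almost all primes
`m`. In the starting results the pairs run through sequences of integer parts of generalised polynomials
(`ThinSequences`), metric sequences, linear forms, or integers with few digits.

Proof: high moments of sums of multiplicative families of local functions over well distributed families
(`Pool.Agent.N647.TS`, helper647) and cubic reciprocity (`Pool.Agent.X22.CC2`);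
families with small Fourier coefficients are well distributed modulo all integers up to a power of `q`; the Fourier
coefficients of short recurrences are estimated by the method of Bourgain, Glibichuk and Konyagin
(`Pool.Agent.Run7.h823.BK`).
-/

set_option autoImplicit false

namespace Pool.Agent.Results.MP_081200_nt.ResidueVectors

open Finset

/-- The Fourier coefficients of the vectors of residues `y i`, `i ∈ s`, modulo `q` at the nonzero frequencies are at most
`η` times the number of the vectors: `|∑ i ∈ s, e(h·y_i / q)| ≤ η |s|` for all vectors `h ≠ 0` modulo `q`. -/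
def Flat {τ ι : Type} [Fintype ι] (q : ℕ) [NeZero q] (η : ℝ) (s : Finset τ) (y : τ → ι → ZMod q) : Prop :=
  ∀ h : ι → ZMod q, h ≠ 0 → ‖∑ i ∈ s, (ZMod.stdAddChar (∑ j, h j * y i j) : ℂ)‖ ≤ η * s.card

/-- The ring `ℤ[ω]` of the Eisenstein integers, `ω ^ 2 = - ω - 1`; `⟨u, v⟩` is `u + v ω`. -/
abbrev Eis : Type := QuadraticAlgebra ℤ (-1) (-1)

/-- The primitive cube root of unity `ω` in `ℤ[ω]`. -/
def om : Eis := ⟨0, 1⟩

/-- The norm of `u + v ω`, namely `u ^ 2 - u v + v ^ 2`. -/
def nm (α : Eis) : ℤ := α.re ^ 2 - α.re * α.im + α.im ^ 2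

/-- The complex cube root of unity `(- 1 + i √3) / 2`. -/
noncomputable def zeta : ℂ := ⟨-1 / 2, Real.sqrt 3 / 2⟩

open Classical in
/-- The cubic residue symbol of the rational integer `n` modulo the prime `π` of `ℤ[ω]` (of norm `p`): it is `0` if `π` divides `n`, and otherwise
it is `1`, `zeta` or `zeta ^ 2` according as `n ^ ((p - 1) / 3)` is congruent to `1`, to `ω` or to `ω ^ 2` modulo `π`. -/
noncomputable def residue (π : Eis) (n : ℕ) : ℂ :=
  if π ∣ (n : Eis) then 0 else if π ∣ (n : Eis) ^ (((nm π).natAbs - 1) / 3) - 1 then 1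
  else if π ∣ (n : Eis) ^ (((nm π).natAbs - 1) / 3) - om then zeta else zeta ^ 2

/-- The Dirichlet character `ψ` modulo the norm of `α` is the cubic residue symbol of `α`: for a decomposition of `α` into primes `π` (up to a unit), `ψ (n)` is the product of
the cubic residue symbols of `n` modulo these primes for all `n` coprime to the norm of `α`. -/
def IsSymbol (α : Eis) (ψ : DirichletCharacter ℂ (nm α).natAbs) : Prop :=
  ∃ P : Multiset Eis, (∀ π ∈ P, Prime π) ∧ Associated P.prod α ∧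
    ∀ n : ℕ, n.Coprime (nm α).natAbs → ψ (n : ZMod (nm α).natAbs) = (P.map (fun π => residue π n)).prod

/-- The sum `∑ w (n) ψ (n) n ^ (- i τ)` over the integers `n` with `M < n ≤ M'`. -/
noncomputable def shortSum {q : ℕ} (ψ : DirichletCharacter ℂ q) (w : ℕ → ℂ) (τ : ℝ) (M M' : ℕ) : ℂ :=
  ∑ n ∈ Ioc M M', w n * ψ (n : ZMod q) * Complex.exp (((-(τ * Real.log n) : ℝ) : ℂ) * Complex.I)

/-- The Eisenstein integer `(c₀ 0 + z_0) + (c₀ 1 + z_1) ω`, where `0 ≤ z_0, z_1 < q` are the least residues of the pair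
number `i`. -/
def alpha {τ : Type} {q : ℕ} (z : τ → Fin 2 → ZMod q) (c₀ : Fin 2 → ℕ) (i : τ) : Eis :=
  ⟨((c₀ 0 + (z i 0).val : ℕ) : ℤ), ((c₀ 1 + (z i 1).val : ℕ) : ℤ)⟩

/-- The property of `α`: if its norm is not divisible by `3`, then for the Dirichlet character `ψ` modulo the norm of `α` which is the
cubic residue symbol of `α`, all integers `x` with `y ≤ x ≤ X`, all functions `w i`, `i ∈ Λ x`, all real `τ` with `|τ| ≤ x ^ A` and all
`M < M' ≤ x` we have `|∑ w (n) ψ (n) n ^ (- i τ)| ≤ x ^ (1 / 2 + δ)`, where the sum runs over the integers `n` with `M < n ≤ M'`. -/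
def ShortSums (δ : ℝ) (A : ℕ) {κ : Type} (w : κ → ℕ → ℂ) (Λ : ℕ → Finset κ) (y : ℕ) (X : ℝ) (α : Eis) : Prop :=
  ¬ (3 : ℤ) ∣ nm α → ∀ ψ : DirichletCharacter ℂ (nm α).natAbs, IsSymbol α ψ →
    ∀ x : ℕ, y ≤ x → (x : ℝ) ≤ X → ∀ i ∈ Λ x, ∀ τ : ℝ, |τ| ≤ (x : ℝ) ^ A → ∀ M M' : ℕ, M' ≤ x →
      ‖shortSum ψ (w i) τ M M'‖ ≤ (x : ℝ) ^ (1 / 2 + δ)

open Pool.Agent.X22.CC Pool.Agent.X22.MT
open Pool.Agent.Y692.QS (Ei nr ep star_re epz wC)
open Pool.Agent.Y715.T.Rec (cs nn)
open Pool.Agent.Y715.T.RecG (cs_spec cs_uniq)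

lemma residue_eq {π : Eis} (hπ : Prime π) (h3 : ¬ π ∣ 3) (n : ℕ) : residue π n = loc π (n : Ei) := by
  by_cases hd : π ∣ (n : Ei)
  · rw [loc_zero hd]
    unfold residue
    rw [if_pos hd]
  · rw [loc_ne hd]
    have h1 := cs_spec hπ h3 hd
    unfold residue
    rw [if_neg hd]
    have e : ((nm π).natAbs - 1) / 3 = nn π := rfl
    rw [e]
    have key : ∀ c : ZMod 3, c = 0 ∨ c = 1 ∨ c = 2 := by decide
    have e0 : (Pool.Agent.Y692.QS.w : Ei) = om := rfl
    rcases key (cs π (n : Ei)) with h | h | h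
    · rw [h] at h1 ⊢
      have h2 : π ∣ (n : Eis) ^ nn π - 1 := by
        have e1 : (Pool.Agent.Y692.QS.w : Ei) ^ (0 : ZMod 3).val = 1 := rfl
        rw [e1] at h1
        exact h1
      rw [if_pos h2]
      rfl
    · rw [h] at h1 ⊢
      have e1 : (Pool.Agent.Y692.QS.w : Ei) ^ (1 : ZMod 3).val = om := by decide
      rw [e1] at h1
      have h2 : ¬ π ∣ (n : Eis) ^ nn π - 1 := by
        intro h2
        have h4 := cs_uniq hπ h3 (c := 0) (d := 1) (by
          have e2 : (Pool.Agent.Y692.QS.w : Ei) ^ (0 : ZMod 3).val = 1 := rfl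
          rw [e2]
          exact h2) (by
          have e2 : (Pool.Agent.Y692.QS.w : Ei) ^ (1 : ZMod 3).val = om := by decide
          rw [e2]
          exact h1)
        exact absurd h4 (by decide)
      rw [if_neg h2, if_pos h1]
      have e2 : (1 : ZMod 3).val = 1 := rfl
      rw [e2, pow_one]
      rfl
    · rw [h] at h1 ⊢
      have h2 : ¬ π ∣ (n : Eis) ^ nn π - 1 := by
        intro h2
        have h4 := cs_uniq hπ h3 (c := 0) (d := 2) (by
          have e2 : (Pool.Agent.Y692.QS.w : Ei) ^ (0 : ZMod 3).val = 1 := rfl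
          rw [e2]
          exact h2) h1
        exact absurd h4 (by decide)
      have h2' : ¬ π ∣ (n : Eis) ^ nn π - om := by
        intro h2
        have h4 := cs_uniq hπ h3 (c := 1) (d := 2) (by
          have e2 : (Pool.Agent.Y692.QS.w : Ei) ^ (1 : ZMod 3).val = om := by decide
          rw [e2]
          exact h2) h1
        exact absurd h4 (by decide)
      rw [if_neg h2, if_neg h2']
      have e2 : (2 : ZMod 3).val = 2 := rfl
      rw [e2]
      rfl

/-- the product of the symbols vanishes at the integers not coprime to the norm -/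
lemma prod_zero (α : Ei) (P : Multiset Ei) (hP : ∀ π ∈ P, Prime π) (hPa : Associated P.prod α) (n : ℕ)
    (hn : ¬ n.Coprime (nr α).natAbs) : (P.map (fun π => loc π (n : Ei))).prod = 0 := by
  obtain ⟨p, hp, hpn, hpα⟩ := Nat.Prime.not_coprime_iff_dvd.1 hn
  have hpZ : Prime (p : ℤ) := Nat.prime_iff_prime_int.1 hp
  have h1 : (p : ℤ) ∣ nr P.prod := by
    have h2 : nr P.prod = nr α := by
      obtain ⟨u, hu⟩ := hPa
      rw [← hu, Pool.Agent.Y692.QS.nr_mul, Pool.Agent.Y692.QS.isUnit_iff.1 u.isUnit, mul_one]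
    rw [h2]
    exact (Int.natCast_dvd).2 hpα
  have h2 : ∀ s : Multiset Ei, (p : ℤ) ∣ nr s.prod → ∃ π ∈ s, (p : ℤ) ∣ nr π := by
    intro s
    induction s using Multiset.induction_on with
    | empty =>
      intro h
      exfalso
      rw [Multiset.prod_zero, Pool.Agent.Y692.QS.nr_one] at h
      exact hpZ.not_isUnit (isUnit_of_dvd_one h)
    | cons a s ih =>
      intro h
      rw [Multiset.prod_cons, Pool.Agent.Y692.QS.nr_mul] at h
      rcases hpZ.dvd_or_dvd h with h | h
      · exact ⟨a, Multiset.mem_cons_self a s, h⟩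
      · obtain ⟨π, hπ, h'⟩ := ih h
        exact ⟨π, Multiset.mem_cons_of_mem hπ, h'⟩
  obtain ⟨π, hπ, hpπ⟩ := h2 P h1
  obtain ⟨l, hl, hπl, hc⟩ := Pool.Agent.Y715.T.Rec.exists_p (hP π hπ)
  have hpl : p = l := by
    have h3 : (p : ℤ) ∣ l := by
      rcases hc with h | h
      · rw [h] at hpπ
        exact hpπ
      · rw [h] at hpπ
        exact hpZ.dvd_of_dvd_pow hpπ
    exact (Nat.prime_dvd_prime_iff_eq hp hl).1 (by exact_mod_cast h3)
  have hπn : π ∣ (n : Ei) := by
    refine hπl.trans ?_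
    rw [← hpl]
    exact_mod_cast (Nat.cast_dvd_cast hpn : ((p : ℕ) : Ei) ∣ (n : Ei))
  apply Multiset.prod_eq_zero
  rw [Multiset.mem_map]
  exact ⟨π, hπ, loc_zero hπn⟩

/-- **Theorem.** (1) For all `β, δ > 0` and `A` there are `κ₀ > 0` and `y₀` such that for all `y ≥ y₀`, all `q`, all
families `z_i`, `i ∈ s`, of pairs of residues modulo `q` with Fourier coefficients at most `q ^ (-β) |s|`, all pairs `c₀` of
natural numbers, and all sets `Λ x` of at most `x ^ A` functions `w` on the integers with `|w (n)| ≤ 1` the following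
holds for all but at most `|s| / y ^ A` members `i`: for the Eisenstein integer `α = (c₀ 0 + z_0) + (c₀ 1 + z_1) ω`, if its
norm is not divisible by `3`, the Dirichlet character `ψ` modulo the norm of `α` which is the cubic residue symbol of `α`,
all integers `x` with `y ≤ x ≤ q ^ κ₀`, all `w` from `Λ x`, all real `τ` with `|τ| ≤ x ^ A` and all `M < M' ≤ x` we have
`|∑ w (n) ψ (n) n ^ (- i τ)| ≤ x ^ (1 / 2 + δ)`, where the sum runs over the integers `n` with `M < n ≤ M'`.

(2) Examples: short linear recurrences. (3) Examples: the first powers of fixed integers, modulo all but `C X ^ ε` of the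
primes `m ≤ X`. -/
theorem result :
    (∀ (β δ : ℝ) (A : ℕ), 0 < β → 0 < δ → ∃ κ₀ : ℝ, 0 < κ₀ ∧ ∃ y₀ : ℕ, ∀ y : ℕ, y₀ ≤ y → ∀ (q : ℕ) [NeZero q]
      (τ : Type) (s : Finset τ) (z : τ → Fin 2 → ZMod q), Flat q ((q : ℝ) ^ (-β)) s z → ∀ c₀ : Fin 2 → ℕ,
      ∀ (κ : Type) (w : κ → ℕ → ℂ) (Λ : ℕ → Finset κ), (∀ i n, ‖w i n‖ ≤ 1) → (∀ x, (Λ x).card ≤ x ^ A) →
      ({i : τ | i ∈ s ∧ ¬ ShortSums δ A w Λ y ((q : ℝ) ^ κ₀) (alpha z c₀ i)}.ncard : ℝ) ≤ 1 / (y : ℝ) ^ A * s.card) ∧
    (∀ (k : ℕ) (ε : ℝ), 0 < ε → ∃ β : ℝ, 0 < β ∧ ∃ m₀ : ℕ, ∀ (m : ℕ) [Fact m.Prime], m₀ ≤ m →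
      ∀ (ι : Type) [Fintype ι] (c : ι → Fin k → ZMod m) (g : Fin k → (ZMod m)ˣ) (N : ℕ), LinearIndependent (ZMod m) c →
      (∀ i, (m : ℝ) ^ ε ≤ orderOf (g i)) → (∀ i j, i ≠ j → (m : ℝ) ^ ε ≤ orderOf (g i / g j)) → (m : ℝ) ^ ε ≤ N →
      Flat m ((m : ℝ) ^ (-β)) (range N) (fun n j => ∑ i, c j i * (g i : ZMod m) ^ n)) ∧
    (∀ (ι : Type) [Fintype ι] (ε : ℝ), 0 < ε → ∃ β : ℝ, 0 < β ∧ ∀ b : ι → ℕ, (∀ j, 2 ≤ b j) → Function.Injective b →
      ∃ C : ℝ, ∀ X : ℕ, 1 ≤ X → ∀ Q : Finset ℕ,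
      (∀ m ∈ Q, m ≤ X ∧ ∃ _ : Fact m.Prime, ¬ ∀ N : ℕ, (m : ℝ) ^ ε ≤ N → ∀ x : ι → ZMod m, (∀ j, x j ≠ 0) →
        Flat m ((m : ℝ) ^ (-β)) (range N) (fun n j => x j * (b j : ZMod m) ^ n)) →
      (Q.card : ℝ) ≤ C * (X : ℝ) ^ ε) := by
  refine ⟨?_, fun k ε hε => Pool.Agent.Run7.h823.WF.flat_rec' k hε,
    fun ι _ ε hε => Pool.Agent.Run7.h823.WF.flat_pow' ι hε⟩
  intro β δ A hβ hδ
  classical
  have h3L : 3 ∣ 3 := dvd_rfl
  obtain ⟨κ₀, hκ₀, y₀, h⟩ := Pool.Agent.Run7.h823.WF.MT.mt_res 2 hβ 3 (by norm_num) δ hδ A (A + 4) A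
  refine ⟨κ₀, hκ₀, y₀ + 3, fun y hy q _ τ' s z hf c₀ κ w Λ hw hΛ => ?_⟩
  refine h y (by omega) τ' q s z c₀ hf (κ × (ZMod 3 × ZMod 3)) (fun x => (Λ x) ×ˢ univ) ?_
    (fun x q' n m => FF n (toE m)) ?_ (fun x q' n => w q'.1 n) (fun x q' n => FF n (star (epz q'.2.1 q'.2.2))) (fun x q' n => hw q'.1 n) (fun x q' n => FF_norm _ _)
    (fun m => ShortSums δ A w Λ y ((q : ℝ) ^ κ₀) (toE m)) ?_
  · intro x hx
    rw [card_product]
    have e1 : (univ : Finset (ZMod 3 × ZMod 3)).card = 9 := by decide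
    rw [e1, pow_add]
    apply Nat.mul_le_mul (hΛ x)
    calc 9 ≤ 3 ^ 4 := by norm_num
      _ ≤ x ^ 4 := Nat.pow_le_pow_left (by omega) 4
  · intro x hx _ _
    apply (fam _ x h3L).mono
    exact Real.one_le_rpow (by exact_mod_cast (by omega : 1 ≤ x)) (by positivity)
  · intro m hm h3 ψ hψ x hyx hxr i hi τ hτ M M' hM'
    obtain ⟨P, hP, hPa, hPψ⟩ := hψ
    have hP3 : ∀ π ∈ P, ¬ π ∣ 3 := by
      intro π hπ
      refine not_three (fun h => h3 (h.trans (nr_dvd ?_))) (hP π hπ)
      exact (Multiset.dvd_prod hπ).trans hPa.dvd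
    obtain ⟨χ, hχ⟩ : ∃ χ : ℕ → ℂ, χ = fun (n : ℕ) => (P.map (fun π => loc π (n : Ei))).prod := ⟨_, rfl⟩
    have hχψ : ∀ n : ℕ, ψ (n : ZMod (nm (toE m)).natAbs) = χ n := by
      intro n
      rw [hχ]
      show ψ (n : ZMod (nm (toE m)).natAbs) = (P.map (fun π => loc π (n : Ei))).prod
      by_cases hn : n.Coprime (nm (toE m)).natAbs
      · rw [hPψ n hn]
        congr 1
        apply Multiset.map_congr rfl
        intro π hπ
        exact residue_eq (hP π hπ) (hP3 π hπ) n
      · rw [prod_zero (toE m) P hP hPa n hn]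
        apply MulChar.map_nonunit
        rw [ZMod.isUnit_iff_coprime]
        exact hn
    have h5 := hm x hyx hxr (i, ((toE m).re : ZMod 3), ((toE m).im : ZMod 3)) (mem_product.2 ⟨hi, mem_univ _⟩) τ hτ χ ?_ ?_ ?_ M M' hM'
    · unfold shortSum
      have e1 : ∑ n ∈ Ioc M M', w i n * ψ (n : ZMod (nm (toE m)).natAbs) * Complex.exp (((-(τ * Real.log n) : ℝ) : ℂ) * Complex.I) =
          ∑ n ∈ Ioc M M', w i n * χ n * Pool.Agent.X22.ND.hp τ n := by
        apply sum_congr rfl
        intro n _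
        rw [hχψ n]
        rfl
      rw [e1]
      exact h5
    · intro n
      rw [← hχψ n]
      exact DirichletCharacter.norm_le_one ψ _
    · intro n n' _ _
      rw [← hχψ, ← hχψ, ← hχψ, Nat.cast_mul, map_mul]
    · intro n hn
      rw [mem_nn] at hn
      have hn3 : ¬ 3 ∣ n := fun h => Nat.not_coprime_of_dvd_of_dvd (by norm_num : 1 < 3) h h3L hn.2
      rw [hχ]
      exact recip (by omega) hn3 (toE m) h3 P hP hPa

end Pool.Agent.Results.MP_081200_nt.ResidueVectors
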