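import Pool.Agent.Run7.h430.TO.All
import Pool.Agent.Results.MP_081200_nt.FewDigitCubicCharacters
import Pool.Agent.N251.LF.DigitThin

/-!
# Short sums of the cubic residue symbols of all Eisenstein integers near pairs of orbits of Euler's function

Let `φ_j` be the `j`-th iterate of Euler's function, `φ_0(m) = m`, and let `F_0`, `F_1` be positive multiplicative functions of
the order `m ^ (1 + o(1))` such that `F_l p ≤ M p` for the large primes `p`, with different values at different large primes; for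
example the identity, Euler's function or the sum of the divisors.

**Theorem.** For `δ > 0` and every integer `A ≥ 0` there is `c > 0` such that for all `κ > 0` with `κ A ≤ 1` and all
`0 ≤ θ < κ A` there is `K(N)` tending to infinity such that for all but `o(N ^ 2)` of the pairs `(m_0, m_1) ∈ [1, N] ^ 2`, for ALL
pairs `(t_0, t_1)` of positive integers with `|t_l - a_l F_l(φ_{j_l}(m_l))| ≤ N ^ θ` for some iterates `j_l ≤ K(N)` and some
multiples `1 ≤ a_l ≤ K(N)`: if the norm of `α = t_0 + t_1 ω` is not divisible by `3` and `ψ` is the cubic residue symbol of `α`, a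
Dirichlet character modulo the norm of `α`, then for all integers `X` with `T ^ κ ≤ X ≤ T ^ c`, `T = max(t_0, t_1)`, all residue
classes `a` modulo an integer `k` with `1 ≤ k ≤ X ^ A` and all real `s` with `|s| ≤ X ^ A` the sum `∑ ψ (n) n ^ (- i s)` over the
integers `n ≡ a (mod k)` in any interval in `[1, X]` is at most `X ^ (1 / 2 + δ)` in absolute value.

The iterates of Euler's function are not multiplicative, and the pairs of their values form a thin set and are taken with very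
large multiplicities; so this does not follow from the number of the exceptional `α` (at most `O(T ^ (2 - 2 κ A + ε))` up to `T`,
from the starting files `FewDigitCubicCharacters` and `N251/LF/DigitThin`), which is used here. The tool is
`Pool.Agent.N760.IT` (starting files, one orbit), transferred to tuples of orbits, with multiples and windows, in
`Run7/h430/TO`.
-/

set_option autoImplicit false

open Finset Filter Topology

namespace Pool.Agent.Results.MP_081200_nt.TotientOrbits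

open FewDigitCubicCharacters (Eis nm IsSymbol shortSum exceptions digit change)

/-- A positive multiplicative function of at most polynomial growth, at most `M p` at the large primes `p` and with different
values at different large primes, and equal to `m ^ (1 + o(1))` for all `m`. -/
structure Moderate (f : ℕ → ℕ) : Prop where
  mul : ∀ m n : ℕ, Nat.Coprime m n → f (m * n) = f m * f n
  pos : ∀ m : ℕ, 1 ≤ m → 1 ≤ f m
  growth : ∃ C D : ℕ, ∀ m : ℕ, 1 ≤ m → f m ≤ C * m ^ D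
  prime : ∃ P M : ℕ, ∀ p : ℕ, P ≤ p → p.Prime → f p ≤ M * p ∧ ∀ q : ℕ, P ≤ q → q.Prime → f q = f p → q = p
  order : ∀ ε : ℝ, 0 < ε → ∃ C : ℝ, 1 ≤ C ∧ ∀ m : ℕ, 1 ≤ m → (m : ℝ) ^ (1 - ε) ≤ C * f m ∧ (f m : ℝ) ≤ C * (m : ℝ) ^ (1 + ε)

/-- the value of `f` at the `j`-th iterate of Euler's function -/
def orb (f : ℕ → ℕ) (j m : ℕ) : ℕ := f (Nat.totient^[j] m)

/-- the pair `t` of positive integers is within `w` of a pair of multiples `a l F l (φ_{j l} (m l))`, `j l, a l ≤ J` -/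
def Near (F : Fin 2 → ℕ → ℕ) (J : ℕ) (w : ℝ) (m t : Fin 2 → ℕ) : Prop :=
  ∃ j a : Fin 2 → ℕ, (∀ l, j l ≤ J) ∧ (∀ l, 1 ≤ a l ∧ a l ≤ J) ∧
    ∀ l, 1 ≤ t l ∧ |(t l : ℝ) - a l * orb (F l) (j l) (m l)| ≤ w

/-- The sum `∑ ψ (n) n ^ (- i s)` over the integers `n ≡ a (mod k)` with `M < n ≤ M'`. -/
noncomputable def progressionSum {q : ℕ} (ψ : DirichletCharacter ℂ q) (k a : ℕ) (s : ℝ) (M M' : ℕ) : ℂ :=
  ∑ n ∈ (Ioc M M').filter (fun n => n ≡ a [MOD k]), ψ (n : ZMod q) * Complex.exp (((-(s * Real.log n) : ℝ) : ℂ) * Complex.I)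

/-- the cubic residue symbol of `t 0 + t 1 ω`, if the norm is not divisible by `3`, has small sums over progressions in
intervals up to `X` for all `X` between the powers `κ` and `c` of the maximum of `t 0` and `t 1` -/
def SmallSums (δ κ c : ℝ) (A : ℕ) (t : Fin 2 → ℕ) : Prop :=
  ¬ (3 : ℤ) ∣ nm (⟨t 0, t 1⟩ : Eis) → ∀ ψ : DirichletCharacter ℂ (nm (⟨t 0, t 1⟩ : Eis)).natAbs, IsSymbol ⟨t 0, t 1⟩ ψ →
    ∀ X : ℕ, ((max (t 0) (t 1) : ℕ) : ℝ) ^ κ ≤ X → (X : ℝ) ≤ ((max (t 0) (t 1) : ℕ) : ℝ) ^ c → ∀ k a : ℕ, 1 ≤ k →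
      k ≤ X ^ A → ∀ s : ℝ, |s| ≤ (X : ℝ) ^ A → ∀ M M' : ℕ, M' ≤ X →
        ‖progressionSum ψ k a s M M'‖ ≤ (X : ℝ) ^ (1 / 2 + δ)

theorem lm_of {f : ℕ → ℕ} (hf : Moderate f) : Pool.Agent.N733.TG.LM f := ⟨hf.mul, hf.pos, hf.growth, hf.prime⟩

theorem of_lm {f : ℕ → ℕ} (hf : Pool.Agent.N733.TG.LM f) (hl : Run7.h430.TO.Lin f) : Moderate f :=
  ⟨hf.mul, hf.pos, hf.growth, hf.prime, hl⟩

theorem moderate_examples : Moderate (fun m => m) ∧ Moderate Nat.totient ∧ Moderate (fun m => ∑ d ∈ m.divisors, d) :=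
  ⟨of_lm Pool.Agent.N760.IT.lm_id Run7.h430.TO.lin_id, of_lm Pool.Agent.N733.TG.lm_totient Run7.h430.TO.lin_totient,
    of_lm Pool.Agent.N733.TG.lm_sigma Run7.h430.TO.lin_sigma⟩

/-- the weights -/
noncomputable def wt (p : ℕ × ℕ) (n : ℕ) : ℂ := if n ≡ p.2 [MOD p.1] then 1 else 0

lemma wt_le (p : ℕ × ℕ) (n : ℕ) : ‖wt p n‖ ≤ 1 := by
  unfold wt
  split_ifs <;> simp

lemma sum_wt {q : ℕ} (ψ : DirichletCharacter ℂ q) (k a : ℕ) (t : ℝ) (M M' : ℕ) :
    progressionSum ψ k a t M M' = shortSum ψ (wt (k, a % k)) t M M' := by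
  unfold progressionSum shortSum
  rw [sum_filter]
  refine sum_congr rfl fun n _ => ?_
  have h1 : (n ≡ a % k [MOD k]) ↔ (n ≡ a [MOD k]) := by
    unfold Nat.ModEq
    rw [Nat.mod_mod]
  unfold wt
  simp only [h1]
  split_ifs <;> simp

lemma exc_spec (b : ℕ) (K s N : Fin 2 → ℕ) (f : Fin 2 → ℕ → ℕ) (E : Eis → Prop) :
    ∃ W : Finset (Fin 2 → Finset ℕ), W.card = exceptions b K s N f E ∧
      ∀ S ∈ Fintype.piFinset (fun l => powersetCard (s l) (range (K l))), S ∉ W →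
        E ⟨change b (K 0) (N 0) (f 0) (S 0), change b (K 1) (N 1) (f 1) (S 1)⟩ := by
  classical
  refine ⟨_, rfl, fun S hS hSW => ?_⟩
  by_contra h
  exact hSW (mem_filter.2 ⟨hS, h⟩)

lemma norm_two (m : Fin 2 → ℕ) : ‖(fun l => (m l : ℝ))‖ = ((max (m 0) (m 1) : ℕ) : ℝ) := by
  apply le_antisymm
  · refine (pi_norm_le_iff_of_nonneg (Nat.cast_nonneg _)).2 fun l => ?_
    rw [Real.norm_eq_abs, abs_of_nonneg (Nat.cast_nonneg _), Nat.cast_le]
    fin_cases l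
    · exact le_max_left _ _
    · exact le_max_right _ _
  · rw [Nat.cast_max]
    refine max_le ?_ ?_
    · have h := norm_le_pi_norm (fun l => (m l : ℝ)) 0
      rwa [Real.norm_eq_abs, abs_of_nonneg (Nat.cast_nonneg _)] at h
    · have h := norm_le_pi_norm (fun l => (m l : ℝ)) 1
      rwa [Real.norm_eq_abs, abs_of_nonneg (Nat.cast_nonneg _)] at h

/-- the number of the exceptional pairs -/
theorem count (δ : ℝ) (hδ : 0 < δ) (A : ℕ) : ∃ c : ℝ, 0 < c ∧ ∀ κ : ℝ, 0 < κ → κ * A ≤ 1 → ∀ ε : ℝ, 0 < ε →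
    ∃ C : ℝ, ∀ X : ℕ, 1 ≤ X →
      ({t : Fin 2 → ℕ | (∀ i, 1 ≤ t i ∧ t i ≤ X) ∧ t ∈ {t : Fin 2 → ℕ | ¬ SmallSums δ κ c A t}}.ncard : ℝ) ≤
        C * (X : ℝ) ^ ((2 : ℝ) - 2 * (κ * A) + ε) := by
  classical
  obtain ⟨c, hc, y₀, h⟩ := FewDigitCubicCharacters.result 2 le_rfl δ hδ (2 * A)
  refine ⟨c / 4, by positivity, fun κ hκ hκA ε hε => ?_⟩
  have hΛ : ∀ x : ℕ, ((Icc 1 (x ^ A)) ×ˢ (range (x ^ A)) : Finset (ℕ × ℕ)).card ≤ x ^ (2 * A) := by
    intro x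
    rw [card_product, Nat.card_Icc, card_range, two_mul, pow_add]
    simp
  obtain ⟨C, hC⟩ := Pool.Agent.N251.LF.thin_digit (d := 2) (c := c) hc (max y₀ 1) (2 * A)
    (fun X m => ¬ (3 : ℤ) ∣ nm (⟨m 0, m 1⟩ : Eis) → ∀ ψ : DirichletCharacter ℂ (nm (⟨m 0, m 1⟩ : Eis)).natAbs,
      IsSymbol ⟨m 0, m 1⟩ ψ → ∀ p ∈ ((Icc 1 (X ^ A)) ×ˢ (range (X ^ A)) : Finset (ℕ × ℕ)), ∀ t : ℝ, |t| ≤ (X : ℝ) ^ (2 * A) →
        ∀ M M' : ℕ, M' ≤ X → ‖shortSum ψ (wt p) t M M'‖ ≤ (X : ℝ) ^ (1 / 2 + δ)) (by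
      intro K r y hrK hy N hN f hf
      have h3 := h K r y hrK ((le_max_left _ _).trans hy) N hN f hf (ℕ × ℕ) wt
        (fun x => (Icc 1 (x ^ A)) ×ˢ (range (x ^ A))) wt_le hΛ
      obtain ⟨W, hW1, hW2⟩ := exc_spec 2 K r N f (fun α => ¬ (3 : ℤ) ∣ nm α → ∀ ψ : DirichletCharacter ℂ (nm α).natAbs, IsSymbol α ψ →
        ∀ x : ℕ, y ≤ x → (∀ l, (x : ℝ) ≤ Real.exp (c * r l)) → ∀ i ∈ ((Icc 1 (x ^ A)) ×ˢ (range (x ^ A)) : Finset (ℕ × ℕ)),
          ∀ τ : ℝ, |τ| ≤ (x : ℝ) ^ (2 * A) → ∀ M M' : ℕ, M' ≤ x → ‖shortSum ψ (wt i) τ M M'‖ ≤ (x : ℝ) ^ (1 / 2 + δ))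
      rw [← hW1] at h3
      refine ⟨W, h3, fun S hS hSW x hyx hxr => ?_⟩
      exact fun h4 ψ hψ p hp t ht M M' hM => hW2 S hS hSW h4 ψ hψ x hyx hxr p hp t ht M M' hM)
    hκ (by push_cast; linarith) ε hε
  refine ⟨C, fun X hX => ?_⟩
  obtain ⟨hfin, hle⟩ := hC X (by exact_mod_cast hX)
  refine le_trans (Nat.cast_le.2 (Set.ncard_le_ncard ?_ hfin)) (hle.trans (le_of_eq ?_))
  · rintro m ⟨hm1, hm2⟩
    refine ⟨fun hgood => hm2 ?_, fun l => ?_⟩
    · intro h3 ψ hψ X hX1 hX2 k' a hk hkX t ht M M' hM'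
      rw [norm_two] at hgood
      rcases Nat.eq_zero_or_pos M' with h0 | h0
      · rw [h0]
        unfold progressionSum
        rw [Ioc_eq_empty (by omega)]
        simp only [filter_empty, sum_empty, norm_zero]
        positivity
      have hX0 : (1 : ℝ) ≤ X := by exact_mod_cast h0.trans_le hM'
      rw [sum_wt]
      refine hgood X hX1 hX2 h3 ψ hψ (k', a % k') ?_ t ?_ M M' hM'
      · exact mem_product.2 ⟨mem_Icc.2 ⟨hk, hkX⟩, mem_range.2 ((Nat.mod_lt _ hk).trans_le hkX)⟩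
      · exact ht.trans (pow_le_pow_right₀ hX0 (by omega))
    · rw [abs_of_nonneg (Nat.cast_nonneg _), Nat.cast_le]
      exact (hm1 l).2
  · congr 2
    push_cast
    ring

/-- **Cubic residue symbols near pairs of orbits of Euler's function.** For `δ > 0` and `A ≥ 0` there is `c > 0` such that for all
`κ > 0` with `κ A ≤ 1`, all `Moderate` functions `F_0`, `F_1` and all `0 ≤ θ < κ A` there is `K(N)` tending to infinity such that
for all but `o(N ^ 2)` of the pairs `m ∈ [1, N] ^ 2` ALL pairs `t` near the orbits of `m` (iterates and multiples up to `K(N)`,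
windows `N ^ θ`) satisfy `SmallSums δ κ c A t`. The identity, Euler's function and the sum of the divisors are `Moderate`. -/
theorem result :
    (∀ δ : ℝ, 0 < δ → ∀ A : ℕ, ∃ c : ℝ, 0 < c ∧ ∀ κ : ℝ, 0 < κ → κ * A ≤ 1 →
      ∀ F : Fin 2 → ℕ → ℕ, (∀ l, Moderate (F l)) → ∀ θ : ℝ, 0 ≤ θ → θ < κ * A →
        ∃ K : ℕ → ℕ, Tendsto K atTop atTop ∧ ∀ ε : ℝ, 0 < ε → ∃ N₀ : ℕ, ∀ N : ℕ, N₀ ≤ N →
          ({m : Fin 2 → ℕ | (∀ l, 1 ≤ m l ∧ m l ≤ N) ∧
            ¬ ∀ t : Fin 2 → ℕ, Near F (K N) ((N : ℝ) ^ θ) m t → SmallSums δ κ c A t}.ncard : ℝ) ≤ ε * (N : ℝ) ^ 2) ∧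
    (Moderate (fun m => m) ∧ Moderate Nat.totient ∧ Moderate (fun m => ∑ d ∈ m.divisors, d)) := by
  refine ⟨fun δ hδ A => ?_, moderate_examples⟩
  obtain ⟨c, hc, hcount⟩ := count δ hδ A
  refine ⟨c, hc, fun κ hκ hκA F hF θ hθ hθκ => ?_⟩
  obtain ⟨C, hC⟩ := hcount κ hκ hκA (κ * A - θ) (by linarith)
  obtain ⟨K, hK, h⟩ := Run7.h430.TO.win_all (k := 2) (fun i => lm_of (hF i)) (fun i => (hF i).order)
    (c := κ * A + θ) (κ := θ) (by push_cast; linarith) hθ (by linarith) (by push_cast; linarith) C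
  refine ⟨K, hK, fun ε hε => ?_⟩
  obtain ⟨N₀, hN₀⟩ := h ε hε
  refine ⟨N₀, fun N hN => ?_⟩
  have h1 := hN₀ N hN {t : Fin 2 → ℕ | ¬ SmallSums δ κ c A t} (fun X hX => (hC X hX).trans (le_of_eq (by
    congr 2
    push_cast
    ring)))
  refine le_trans (le_of_eq ?_) h1
  congr 2
  ext m
  constructor
  · rintro ⟨hm, h3⟩
    obtain ⟨t, h4⟩ := not_forall.1 h3
    obtain ⟨h5, h6⟩ := Classical.not_imp.1 h4
    exact ⟨hm, t, h6, h5⟩
  · rintro ⟨hm, t, h6, h5⟩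
    exact ⟨hm, fun h7 => h6 (h7 t h5)⟩

end Pool.Agent.Results.MP_081200_nt.TotientOrbits
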